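import Pool.Agent.Helper34.PU.Grid

set_option autoImplicit false

open scoped Classical

namespace Pool.Agent.Helper34.PU.Side2

open Pool.Agent.Helper34.PU

/-- the `n × n` grid: the cartesian product of two paths with `n` vertices -/
def squareGrid (n : ℕ) : SimpleGraph (Fin n × Fin n) :=
  (SimpleGraph.pathGraph n).boxProd (SimpleGraph.pathGraph n)

/-- `G` arrows `H` with `r` colours: in every colouring of the edges of `G` with `r` colours some
colour class contains a copy of `H` -/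
def Arrows {V W : Type} (r : ℕ) (G : SimpleGraph V) (H : SimpleGraph W) : Prop :=
  ∀ χ : G.edgeSet → Fin r, ∃ c : Fin r, H.IsContained (colourClass G χ c)

theorem square_le (n : ℕ) : (squareGrid n).IsContained (grid 2 n) := by
  refine ⟨⟨⟨fun p => ![p.1, p.2], ?_⟩, ?_⟩⟩
  · rintro ⟨a, b⟩ ⟨a', b'⟩ h
    rw [squareGrid, SimpleGraph.boxProd_adj] at h
    simp only [SimpleGraph.pathGraph_adj] at h
    rcases h with ⟨h1, h2⟩ | ⟨h1, h2⟩
    · refine ⟨0, by simpa using h1, fun j hj => ?_⟩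
      fin_cases j
      · exact absurd rfl hj
      · simpa using h2
    · refine ⟨1, by simpa using h1, fun j hj => ?_⟩
      fin_cases j
      · simpa using h2
      · exact absurd rfl hj
  · rintro ⟨a, b⟩ ⟨a', b'⟩ h
    have h0 : a = a' := congrFun h 0
    have h1 : b = b' := congrFun h 1
    rw [h0, h1]

/-- the size-Ramsey number with `r` colours of the `n × n` grid is at most `C n ^ (2 + ε)` -/
theorem result (r : ℕ) (hr : 1 ≤ r) (ε : ℝ) (hε : 0 < ε) :
    ∃ C : ℝ, ∀ n : ℕ, 1 ≤ n → ∃ (V : Type) (_ : Fintype V) (G : SimpleGraph V),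
      Arrows r G (squareGrid n) ∧ (G.edgeSet.ncard : ℝ) ≤ C * (n : ℝ) ^ (2 + ε) := by
  obtain ⟨C, hC⟩ := grid_host r 2 hr (by norm_num) ε hε
  refine ⟨C, fun n hn => ?_⟩
  obtain ⟨V, hV, G, h1, h2⟩ := hC n hn
  refine ⟨V, hV, G, fun χ => ?_, by exact_mod_cast h2⟩
  obtain ⟨c, hc⟩ := h1 χ
  exact ⟨c, (square_le n).trans hc⟩

end Pool.Agent.Helper34.PU.Side2
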