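import Pool.Agent.Helper34.PU.Grid

set_option autoImplicit false

open scoped Classical

namespace Pool.Agent.Helper34.PU.SideD

open Pool.Agent.Helper34.PU

/-- `G` arrows `H` with `r` colours: in every colouring of the edges of `G` with `r` colours some
colour class contains a copy of `H` -/
def Arrows {V W : Type} (r : ℕ) (G : SimpleGraph V) (H : SimpleGraph W) : Prop :=
  ∀ χ : G.edgeSet → Fin r, ∃ c : Fin r, H.IsContained (colourClass G χ c)

/-- the size-Ramsey number with `r` colours of the `d`-dimensional grid with side `n` is at most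
`C n ^ (d + ε)` -/
theorem result (r d : ℕ) (hr : 1 ≤ r) (hd : 1 ≤ d) (ε : ℝ) (hε : 0 < ε) :
    ∃ C : ℝ, ∀ n : ℕ, 1 ≤ n → ∃ (V : Type) (_ : Fintype V) (G : SimpleGraph V),
      Arrows r G (grid d n) ∧ (G.edgeSet.ncard : ℝ) ≤ C * (n : ℝ) ^ ((d : ℝ) + ε) :=
  grid_host r d hr hd ε hε

end Pool.Agent.Helper34.PU.SideD
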